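import Pool.Agent.H65.HX.SStm

/-!
# Project HX, scheme side: part CLD
-/

set_option autoImplicit false
open Classical Finset

namespace Pool.Agent.H96.HX

open Pool.Agent.H39.HW (sm Av ln blk lab)
open Pool.Agent.H65.HX Pool.Agent.H65.HX.Sc

variable {x : Prm}

theorem Dpos (hx : Par x) : (0 : ℝ) < x.D := by
  have := hx.D1
  exact_mod_cast this

theorem hpos (hx : Par x) : (1000 : ℝ) ≤ x.h := by exact_mod_cast hx.h1

theorem Lpos (hx : Par x) : (8000000 : ℝ) ≤ x.L := by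
  have h1 := hx.h1
  have h2 : 8000000 ≤ x.L := by
    rw [hx.L1]
    nlinarith
  exact_mod_cast h2

theorem n0mu_le (hx : Par x) : x.n0 * x.μ ≤ 1 / 10 ^ 12 := by
  have h1 := hx.V1
  have h2 := hpos hx
  have h3 := Lpos hx
  have h4 : 0 ≤ (x.n0 : ℝ) * x.μ := mul_nonneg (Nat.cast_nonneg _) hx.m0.le
  have h5 : (1 : ℝ) ≤ (x.L : ℝ) * x.h := by nlinarith
  have h6 : 10 ^ 12 * (x.n0 * x.μ) ≤ 1 := by nlinarith
  linarith

theorem eta_le (hx : Par x) : x.η ≤ 1 / 10 ^ 18 := by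
  have h1 := n0mu_le hx
  have h2 := hx.V2
  linarith

theorem th_le (hx : Par x) : x.θ ≤ 1 / 10 ^ 18 := hx.th.trans (eta_le hx)

theorem p2 (hx : Par x) : 2 ≤ x.p := by
  have := hx.g3
  omega

theorem mem_R (hx : Par x) {a : ℕ} : a ∈ x.R ↔ x.K + 1 ≤ a ∧ a + x.K + 1 ≤ x.B := by
  have h2 := hx.J1
  unfold Prm.R Prm.b1 Prm.B
  rw [Finset.mem_Icc]
  omega

theorem mu_le_w2 (hx : Par x) : (1 + 7 / 50 * x.θ) * x.μ ≤ (x.w2 : ℝ) / x.D := by
  have h1 := (abs_le.mp hx.s2).1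
  have h2 := eta_le hx
  have h3 : 0 < x.θ * x.μ := mul_pos hx.t0 hx.m0
  have h4 : x.η * x.θ * x.μ ≤ 1 / 10 ^ 18 * (x.θ * x.μ) := by
    rw [mul_assoc]
    exact mul_le_mul_of_nonneg_right h2 h3.le
  nlinarith

theorem v_le (hx : Par x) : (x.v : ℝ) / x.D ≤ (1 + 61 / 100 * x.θ) * x.μ := by
  have h1 := (abs_le.mp hx.s3).2
  have h2 := eta_le hx
  have h3 : 0 < x.θ * x.μ := mul_pos hx.t0 hx.m0
  have h4 : x.η * x.θ * x.μ ≤ 1 / 10 ^ 18 * (x.θ * x.μ) := by
    rw [mul_assoc]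
    exact mul_le_mul_of_nonneg_right h2 h3.le
  nlinarith

theorem v_le2 (hx : Par x) : (x.v : ℝ) / x.D ≤ 101 / 100 * x.μ := by
  have h1 := v_le hx
  have h2 := th_le hx
  have h3 := hx.m0
  nlinarith

theorem M_le (hx : Par x) : (x.M : ℝ) / x.D ≤ 1 / 100 * x.μ := by
  have h1 := hx.D2
  have h2 := Dpos hx
  have h3 : (x.M : ℝ) ≤ x.B := by
    have : x.M ≤ x.B := by
      show x.M ≤ 2 * x.K + 2 * x.J + x.M
      omega
    exact_mod_cast this
  rw [div_le_iff₀ h2]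
  have h4 : x.η * x.θ * x.μ * x.D ≤ 1 * (x.μ * x.D) := by
    have a1 := eta_le hx
    have a2 := th_le hx
    have a3 : x.η * x.θ ≤ 1 * 1 :=
      mul_le_mul (by linarith) (by linarith) hx.t0.le (by norm_num)
    have a4 : 0 < x.μ * x.D := mul_pos hx.m0 h2
    have := mul_le_mul_of_nonneg_right a3 a4.le
    nlinarith
  nlinarith [mul_pos hx.m0 h2]

theorem lnD_ge (hB : S_BLK) (hx : Par x) {β : ℕ} (hβ : β < x.B) :
    (x.w2 : ℝ) / x.D ≤ (ln x.st β : ℝ) / x.D := by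
  have h1 := ((hB x hx).2.2.2.2.2.2.2.2.2.2 β hβ).1
  have h2 := Dpos hx
  have h3 : (x.w2 : ℝ) ≤ (ln x.st β : ℝ) := by exact_mod_cast h1
  exact div_le_div_of_nonneg_right h3 h2.le

theorem lnD_le (hB : S_BLK) (hx : Par x) {β : ℕ} (hβ : β < x.B) :
    (ln x.st β : ℝ) / x.D ≤ 2 * x.μ := by
  have h1 := ((hB x hx).2.2.2.2.2.2.2.2.2.2 β hβ).2
  have h2 := Dpos hx
  have h3 : (ln x.st β : ℝ) ≤ (x.v : ℝ) + x.M := by exact_mod_cast h1
  have h4 : (ln x.st β : ℝ) / x.D ≤ ((x.v : ℝ) + x.M) / x.D :=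
    div_le_div_of_nonneg_right h3 h2.le
  have h5 : ((x.v : ℝ) + x.M) / x.D = (x.v : ℝ) / x.D + (x.M : ℝ) / x.D := by rw [add_div]
  have h7 := M_le hx
  have h8 := v_le2 hx
  have h9 := hx.m0
  linarith

theorem mem_cls {a β : ℕ} : β ∈ x.cls a ↔ β < x.B ∧ Av x.st x.p a β ∧ β ≠ sm x.B a a ∧
    ¬ (β / x.W = x.win true a ∧ 4 * x.h ^ 2 ≤ β % x.L ∧ β % x.L < 4 * x.h ^ 2 + x.h) ∧
    ¬ (β / x.W = x.win false a ∧ 4 * x.h ^ 2 + x.h ≤ β % x.L ∧
      β % x.L < 4 * x.h ^ 2 + 2 * x.h) := by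
  have e1 : x.cls a = (((range x.B).filter fun β => Av x.st x.p a β).erase (sm x.B a a)) \
    (range (2 * x.h)).biUnion fun P => x.S P a := rfl
  rw [e1, mem_sdiff, mem_erase, mem_filter, mem_range, mem_biUnion]
  constructor
  · rintro ⟨⟨h1, h2, h3⟩, h4⟩
    refine ⟨h2, h3, h1, ?_, ?_⟩
    · rintro ⟨h6, h7, h8⟩
      apply h4
      refine ⟨β % x.L - 4 * x.h ^ 2, ?_, ?_⟩
      · rw [mem_range]; omega
      · have ht : x.tp (β % x.L - 4 * x.h ^ 2) = true := by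
          unfold Prm.tp
          rw [decide_eq_true_eq]
          omega
        unfold Prm.S
        rw [mem_filter, mem_range, ht]
        exact ⟨h2, h6, by omega⟩
    · rintro ⟨h6, h7, h8⟩
      apply h4
      refine ⟨β % x.L - 4 * x.h ^ 2, ?_, ?_⟩
      · rw [mem_range]; omega
      · have ht : x.tp (β % x.L - 4 * x.h ^ 2) = false := by
          unfold Prm.tp
          rw [decide_eq_false_iff_not]
          omega
        unfold Prm.S
        rw [mem_filter, mem_range, ht]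
        exact ⟨h2, h6, by omega⟩
  · rintro ⟨h1, h2, h3, h4, h5⟩
    refine ⟨⟨h3, h1, h2⟩, ?_⟩
    rintro ⟨P, hP, hP2⟩
    rw [mem_range] at hP
    unfold Prm.S at hP2
    rw [mem_filter] at hP2
    obtain ⟨-, k1, k2⟩ := hP2
    by_cases hPh : P < x.h
    · have ht : x.tp P = true := by
        unfold Prm.tp
        rw [decide_eq_true_eq]
        exact hPh
      rw [ht] at k1
      exact h4 ⟨k1, by omega, by omega⟩
    · have ht : x.tp P = false := by
        unfold Prm.tp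
        rw [decide_eq_false_iff_not]
        exact hPh
      rw [ht] at k1
      exact h5 ⟨k1, by omega, by omega⟩

theorem t_CLD (hB : S_BLK) (hA : S_AVA) (hM : S_MMD) (hW : S_WIN) : S_CLD := by
  intro x hx a ha
  obtain ⟨m1, m2, m3, m4⟩ := (hM x hx).2 a ha
  have haR := (mem_R hx).mp ha
  have key : x.mm a ⊆ x.cls a := by
    intro β hβ
    rw [m1] at hβ
    obtain ⟨b1, b2, b3⟩ := hβ
    rw [mem_cls]
    refine ⟨b1, (hA x hx a ha β b1).2.2.1 b2, b3, ?_, ?_⟩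
    · rintro ⟨h6, -, -⟩
      exact b2 ((hW x hx a ha true).1 β h6).2.2.1
    · rintro ⟨h6, -, -⟩
      exact b2 ((hW x hx a ha false).1 β h6).2.2.1
  have hself : a ∉ x.cls a := by
    intro h
    rw [mem_cls] at h
    have h1 := ((hB x hx).2.2.2.2.2.2.2.2.2.2 a h.1).1
    have h2 := hx.w0
    have h3 := p2 hx
    unfold ln at h1
    rcases h.2.1 with h4 | h4 <;> omega
  have d1 : ∀ β ∈ x.cls a, x.adj a β → x.dem a β = (ln x.st β : ℝ) / x.D := by
    intro β hβ hadj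
    have : β ∉ x.mm a := by
      rw [m1]
      rintro ⟨-, h, -⟩
      exact h hadj
    show (ln x.st β : ℝ) / x.D - (if β ∈ x.mm a then x.μ else 0) = _
    rw [if_neg this, sub_zero]
  have d2 : ∀ β ∈ x.cls a, ¬ x.adj a β → x.dem a β = (ln x.st β : ℝ) / x.D - x.μ := by
    intro β hβ hadj
    rw [mem_cls] at hβ
    have : β ∈ x.mm a := by
      rw [m1]
      exact ⟨hβ.1, hadj, hβ.2.2.1⟩
    show (ln x.st β : ℝ) / x.D - (if β ∈ x.mm a then x.μ else 0) = _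
    rw [if_pos this]
  refine ⟨fun β => mem_cls, key, hself, d1, d2, ?_, ?_⟩
  · intro β hβ
    have hlt : β < x.B := (mem_cls.mp hβ).1
    have l1 := lnD_ge hB hx hlt
    have l2 := lnD_le hB hx hlt
    have l3 := mu_le_w2 hx
    have l4 := hx.m0
    have l5 : 0 < x.θ * x.μ := mul_pos hx.t0 hx.m0
    have l6 := th_le hx
    have l7 : x.θ * x.μ ≤ 1 * x.μ := mul_le_mul_of_nonneg_right (by linarith) l4.le
    by_cases hadj : x.adj a β
    · rw [d1 β hβ hadj]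
      constructor
      · nlinarith
      · exact l2
    · rw [d2 β hβ hadj]
      constructor
      · nlinarith
      · linarith
  · intro β hβ hmid hadj
    rw [d2 β hβ hadj]
    have h4 := Finset.mem_Ico.mp hmid
    rw [(hB x hx).2.2.2.2.2.2.1 β h4.1 h4.2]
    have h5 := abs_le.mp hx.s3
    constructor
    · nlinarith [h5.1]
    · nlinarith [h5.2]

end Pool.Agent.H96.HX
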