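import Pool.Agent.H96.HX.Cld

/-!
# Project HX, scheme side: part DJN
-/

set_option autoImplicit false
open Classical Finset

namespace Pool.Agent.H96.HX

open Pool.Agent.H39.HW (sm Av ln blk lab)
open Pool.Agent.H65.HX Pool.Agent.H65.HX.Sc

variable {x : Prm}

theorem X_bounds (hx : Par x) :
    (2 / 5 - x.η) * x.θ ≤ ((x.K : ℝ) - x.g) * (x.v / x.D) ∧
      ((x.K : ℝ) - x.g) * (x.v / x.D) ≤ (2 / 5 + x.η) * x.θ := by
  have h := abs_le.mp hx.j2
  constructor <;> linarith [h.1, h.2]

theorem DJ_eq (hB : S_BLK) (hC : S_CLD) (hx : Par x) {a : ℕ} (ha : a ∈ x.R) :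
    x.DJ a = ((x.Fx a).card : ℝ) * ((x.v : ℝ) / x.D) := by
  have h1 : x.DJ a = ∑ β ∈ x.Fx a, (x.v : ℝ) / x.D := by
    apply Finset.sum_congr rfl
    intro β hβ
    unfold Prm.Fx at hβ
    rw [mem_filter] at hβ
    rw [(hC x hx a ha).2.2.2.1 β hβ.1 hβ.2.2]
    have h4 := Finset.mem_Ico.mp hβ.2.1
    rw [(hB x hx).2.2.2.2.2.2.1 β h4.1 h4.2]
  rw [h1, sum_const, nsmul_eq_mul]

/-- `J ≤ g` -/
theorem J_le_g (hZ : S_ZON) (hx : Par x) : x.J ≤ x.g := by
  by_contra hcon
  have h1 : x.g + 1 ≤ x.J := by omega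
  have h2 : (x.g : ℝ) + 1 ≤ x.J := by exact_mod_cast h1
  have h3 := hx.m0
  have h4 := (abs_le.mp (hZ x hx).2.2.1).1
  have h6 := hx.j1
  have h7 := eta_le hx
  have h10 : ((x.g : ℝ) + 1) * x.μ ≤ x.J * x.μ := mul_le_mul_of_nonneg_right h2 h3.le
  nlinarith

/-- number of reserved blocks in the windows of the row -/
theorem card_res (hW : S_WIN) (hx : Par x) {a : ℕ} (ha : a ∈ x.R) (I : Finset ℕ)
    (hI : ∀ β ∈ I, β < x.B ∧
      ((β / x.W = x.win true a ∧ 4 * x.h ^ 2 ≤ β % x.L ∧ β % x.L < 4 * x.h ^ 2 + x.h) ∨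
        (β / x.W = x.win false a ∧ 4 * x.h ^ 2 + x.h ≤ β % x.L ∧
          β % x.L < 4 * x.h ^ 2 + 2 * x.h)))
    (τ : Bool) (hτ : ∀ β ∈ I, β / x.W = x.win (!τ) a → False) :
    I.card ≤ x.h * x.q := by
  have hsub : I ⊆ ((range (2 * x.h)).filter fun P => x.tp P = τ).biUnion fun P => x.S P a := by
    intro β hβ
    obtain ⟨hlt, hor⟩ := hI β hβ
    rw [mem_biUnion]
    rcases hor with ⟨h6, h7, h8⟩ | ⟨h6, h7, h8⟩
    · have ht : x.tp (β % x.L - 4 * x.h ^ 2) = true := by
        unfold Prm.tp
        rw [decide_eq_true_eq]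
        omega
      have hτ' : τ = true := by
        cases τ with
        | true => rfl
        | false => exact (hτ β hβ h6).elim
      refine ⟨β % x.L - 4 * x.h ^ 2, ?_, ?_⟩
      · rw [mem_filter, mem_range, ht, hτ']
        exact ⟨by omega, rfl⟩
      · unfold Prm.S
        rw [mem_filter, mem_range, ht]
        exact ⟨hlt, h6, by omega⟩
    · have ht : x.tp (β % x.L - 4 * x.h ^ 2) = false := by
        unfold Prm.tp
        rw [decide_eq_false_iff_not]
        omega
      have hτ' : τ = false := by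
        cases τ with
        | true => exact (hτ β hβ h6).elim
        | false => rfl
      refine ⟨β % x.L - 4 * x.h ^ 2, ?_, ?_⟩
      · rw [mem_filter, mem_range, ht, hτ']
        exact ⟨by omega, rfl⟩
      · unfold Prm.S
        rw [mem_filter, mem_range, ht]
        exact ⟨hlt, h6, by omega⟩
  refine (Finset.card_le_card hsub).trans ?_
  refine Finset.card_biUnion_le.trans ?_
  have h1 : ∀ P ∈ (range (2 * x.h)).filter (fun P => x.tp P = τ), (x.S P a).card = x.q := by
    intro P hP
    rw [mem_filter, mem_range] at hP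
    exact (hW x hx a ha true).2.2.1 P hP.1
  rw [Finset.sum_congr rfl h1, sum_const, smul_eq_mul]
  apply Nat.mul_le_mul_right
  -- at most `h` parts of every type
  cases τ with
  | true =>
    have : (range (2 * x.h)).filter (fun P => x.tp P = true) ⊆ range x.h := by
      intro P hP
      rw [mem_filter, mem_range] at hP
      have := hP.2
      unfold Prm.tp at this
      rw [decide_eq_true_eq] at this
      exact mem_range.mpr this
    have := Finset.card_le_card this
    rwa [card_range] at this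
  | false =>
    have : (range (2 * x.h)).filter (fun P => x.tp P = false) ⊆ Finset.Ico x.h (2 * x.h) := by
      intro P hP
      rw [mem_filter, mem_range] at hP
      have h2 := hP.2
      unfold Prm.tp at h2
      rw [decide_eq_false_iff_not] at h2
      rw [Finset.mem_Ico]
      omega
    have := Finset.card_le_card this
    rw [Nat.card_Ico] at this
    omega

/-- bounds for the number of flexible classes -/
theorem card_Fx (hA : S_AVA) (hM : S_MMD) (hW : S_WIN) (hC : S_CLD) (hZ : S_ZON) (hx : Par x)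
    {a : ℕ} (ha : a ∈ x.R) (ha0 : a ∉ x.R0) :
    (x.Fx a).card ≤ x.K - x.g ∧ x.K ≤ (x.Fx a).card + x.g + x.e + x.h * x.q := by
  have haR := (mem_R hx).mp ha
  have hJg := J_le_g hZ hx
  have hgK := hx.g1
  have hb0 : x.b0 = x.K + x.J := rfl
  have hb1 : x.b1 + x.K + x.J = x.B := by
    show x.K + x.J + x.M + x.K + x.J = 2 * x.K + 2 * x.J + x.M
    omega
  have hne := ((hM x hx).2 a ha).2.2.2
  have hcases : 2 * a + 2 * x.n0 < x.B ∨ x.B + 2 * x.n0 < 2 * a := by
    by_contra hcon
    push Not at hcon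
    apply ha0
    unfold Prm.R0
    rw [mem_filter]
    exact ⟨ha, hcon.1, hcon.2⟩
  have hself := (hC x hx a ha).2.2.1
  -- the general lower bound
  have main : ∀ (I : Finset ℕ) (τ : Bool), (∀ β ∈ I, β ∈ x.mid ∧ x.adj a β ∧
      Av x.st x.p a β ∧ (β / x.W = x.win (!τ) a → False)) →
      I.card ≤ (x.Fx a).card + x.h * x.q := by
    intro I τ hI
    have h1 : I = I.filter (fun β => β ∈ x.Fx a) ∪ I.filter (fun β => ¬ β ∈ x.Fx a) :=
      (Finset.filter_union_filter_not_eq _ _).symm
    have h2 : (I.filter (fun β => β ∈ x.Fx a)).card ≤ (x.Fx a).card := by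
      apply Finset.card_le_card
      intro β hβ
      rw [mem_filter] at hβ
      exact hβ.2
    have h3 : (I.filter (fun β => ¬ β ∈ x.Fx a)).card ≤ x.h * x.q := by
      apply card_res hW hx ha _ _ τ
      · intro β hβ
        rw [mem_filter] at hβ
        exact (hI β hβ.1).2.2.2
      · intro β hβ
        rw [mem_filter] at hβ
        obtain ⟨i1, i2, i3, -⟩ := hI β hβ.1
        have i5 := Finset.mem_Ico.mp i1
        have hlt : β < x.B := by omega
        refine ⟨hlt, ?_⟩
        by_contra hcon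
        rw [not_or] at hcon
        apply hβ.2
        unfold Prm.Fx
        rw [mem_filter]
        refine ⟨?_, i1, i2⟩
        rw [(hC x hx a ha).1]
        refine ⟨hlt, i3, ?_, hcon.1, hcon.2⟩
        intro he
        rw [he] at i2
        exact hne i2
    have h4 := Finset.card_union_le (I.filter (fun β => β ∈ x.Fx a))
      (I.filter (fun β => ¬ β ∈ x.Fx a))
    rw [← h1] at h4
    omega
  rcases hcases with hlow | hhigh
  · obtain ⟨z1, z2, z3, z4⟩ := ((hZ x hx).2.2.2.2.2 a ha).1 hlow
    constructor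
    · have hsub : x.Fx a ⊆ Finset.Icc (a + x.g + 1) (a + x.K) := by
        intro β hβ
        unfold Prm.Fx at hβ
        rw [mem_filter] at hβ
        obtain ⟨h1, h2, h3⟩ := hβ
        have h4 := ((hC x hx a ha).1 β).mp h1
        have h5 := Finset.mem_Ico.mp h2
        have h6 : ¬ β < a := fun h => by
          have := z4 β h4.1 h h4.2.1
          omega
        have h8 := (hA x hx a ha β h4.1).2.2.2.1 (by omega) h4.2.1
        rw [Finset.mem_Icc]
        exact ⟨h8, h3.1⟩
      have h5 := Finset.card_le_card hsub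
      rw [Nat.card_Icc] at h5
      omega
    · have := main (Finset.Icc (a + x.g + 1 + x.e) (a + x.K)) true (by
        intro β hβ
        rw [Finset.mem_Icc] at hβ
        have hmid : β ∈ x.mid := by
          unfold Prm.mid
          rw [Finset.mem_Ico]
          constructor <;> omega
        have i5 := Finset.mem_Ico.mp hmid
        refine ⟨hmid, ⟨by omega, by omega⟩, ?_, ?_⟩
        · exact (hA x hx a ha β (by omega)).2.2.2.2.2.1 i5.1 i5.2 (by omega)
        · intro h
          have := (((hW x hx a ha false).1 β h).2.2.2.2 rfl).1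
          omega)
      rw [Nat.card_Icc] at this
      omega
  · obtain ⟨z1, z2, z3, z4⟩ := ((hZ x hx).2.2.2.2.2 a ha).2.1 hhigh
    constructor
    · have hsub : x.Fx a ⊆ Finset.Icc (a - x.K) (a - x.g - 1) := by
        intro β hβ
        unfold Prm.Fx at hβ
        rw [mem_filter] at hβ
        obtain ⟨h1, h2, h3⟩ := hβ
        have h4 := ((hC x hx a ha).1 β).mp h1
        have h5 := Finset.mem_Ico.mp h2
        have h6 : ¬ a < β := fun h => by
          have := z4 β h4.1 h h4.2.1
          omega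
        have h8 := (hA x hx a ha β h4.1).2.2.2.2.1 (by omega) h4.2.1
        have h9 := h3.2
        rw [Finset.mem_Icc]
        constructor <;> omega
      have h5 := Finset.card_le_card hsub
      rw [Nat.card_Icc] at h5
      omega
    · have := main (Finset.Icc (a - x.K) (a - x.g - 1 - x.e)) false (by
        intro β hβ
        rw [Finset.mem_Icc] at hβ
        have hmid : β ∈ x.mid := by
          unfold Prm.mid
          rw [Finset.mem_Ico]
          constructor <;> omega
        have i5 := Finset.mem_Ico.mp hmid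
        refine ⟨hmid, ⟨by omega, by omega⟩, ?_, ?_⟩
        · by_cases hle : β + x.g + 1 + x.e ≤ a
          · exact (hA x hx a ha β (by omega)).2.2.2.2.2.2.1 i5.1 i5.2 (by omega)
          · omega
        · intro h
          have := (((hW x hx a ha true).1 β h).2.2.2.1 rfl).1
          omega)
      rw [Nat.card_Icc] at this
      omega

theorem t_DJN (hB : S_BLK) (hA : S_AVA) (hM : S_MMD) (hW : S_WIN) (hC : S_CLD)
    (hZ : S_ZON) : S_DJN := by
  intro x hx a ha ha0
  obtain ⟨c1, c2⟩ := card_Fx hA hM hW hC hZ hx ha ha0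
  have hD := Dpos hx
  have hv0 : 0 ≤ (x.v : ℝ) / x.D := by positivity
  have hgK := hx.g1
  have eJ := DJ_eq hB hC hx ha
  have hX := X_bounds hx
  have up : x.DJ a ≤ ((x.K : ℝ) - x.g) * (x.v / x.D) := by
    rw [eJ]
    apply mul_le_mul_of_nonneg_right _ hv0
    have : (x.Fx a).card + x.g ≤ x.K := by omega
    have : ((x.Fx a).card : ℝ) + x.g ≤ x.K := by exact_mod_cast this
    linarith
  refine ⟨?_, up.trans hX.2, up⟩
  have h2 : (x.K : ℝ) - x.g - x.e - x.h * x.q ≤ (x.Fx a).card := by
    have : (x.K : ℝ) ≤ (x.Fx a).card + x.g + x.e + x.h * x.q := by exact_mod_cast c2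
    linarith
  have h3 := mul_le_mul_of_nonneg_right h2 hv0
  have h5 := hx.q3
  have h6 := hx.e3
  have h7 := v_le2 hx
  have h8 : (x.e : ℝ) * ((x.v : ℝ) / x.D) ≤ 101 / 100 * (x.η * x.θ) := by
    have a1 : (x.e : ℝ) * ((x.v : ℝ) / x.D) ≤ x.e * (101 / 100 * x.μ) :=
      mul_le_mul_of_nonneg_left h7 (Nat.cast_nonneg _)
    have a2 := hx.m0
    have a3 : (x.e : ℝ) * x.μ ≤ x.η * x.θ := by nlinarith
    nlinarith
  have h9 : 0 < x.η * x.θ := mul_pos hx.n1 hx.t0
  have hL := Lpos hx
  have h10 : x.θ / (120 * x.L) ≤ 1 / (100 * x.L) * x.θ := by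
    have e1 : x.θ / (120 * x.L) = 1 / (120 * x.L) * x.θ := by
      rw [one_div, div_eq_mul_inv, mul_comm]
    rw [e1]
    apply mul_le_mul_of_nonneg_right _ hx.t0.le
    apply one_div_le_one_div_of_le (by linarith) (by linarith)
  rw [eJ]
  have h11 : ((x.K : ℝ) - x.g - x.e - x.h * x.q) * ((x.v : ℝ) / x.D) =
      ((x.K : ℝ) - x.g) * (x.v / x.D) - x.e * ((x.v : ℝ) / x.D) -
        x.h * x.q * ((x.v : ℝ) / x.D) := by ring
  rw [h11] at h3
  nlinarith [hX.1]

end Pool.Agent.H96.HX
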